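import Mathlib
import Pool.Agent.Lib.H31R.Final2

/-!
# Diffeomorphism finiteness fails under bounded Ricci curvature in all dimensions `d ≥ 7`

For every `d ≥ 7` there are `lam, v, D > 0` and infinitely many pairwise non-diffeomorphic closed
`d`-manifolds `M 0, M 1, ...`, each with a Riemannian metric with `|Ric| ≤ lam`, volume at least `v`
and diameter at most `D`.

The notions are defined in `Pool/Agent/Lib/H31R/Stat.lean` (`EE`, `pd`, `chr`, `ric`, `RB`, closed manifolds,
diffeomorphic) and `Pool/Agent/Lib/H31R/Stat2.lean` (`Ch.Metric`, `Ch.RicBounded`, `Ch.vol`, `Ch.rdist`).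

Idea (`d = 7`): `M k` is the sphere bundle of `R + L`, `L` a complex line bundle over `T^2 × S^2`, times a
circle. The metric resolves the singular set of `(T^2 × S^4/±) × S^1` by Eguchi-Hanson spaces with
hyperkaehler parameter `u : T^2 → R^3 - 0` of degree `k`. After a correction the Ricci tensor is of
order `|Δ u| / |u|`, and this quantity is bounded independently of the degree of `u / |u|`.
For `d = 7 + m` the manifolds are the products `M k × T^m` (with a flat torus); `k` is determined by
the cohomology ring.
-/

set_option autoImplicit false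

open H31R

namespace Pool.Agent.Results.MP_1ef7b6_gt.InfinitelyManyAllDimensions

/-- For every `d ≥ 7` there are `lam, v, D > 0` and a sequence of pairwise non-diffeomorphic closed
`d`-manifolds, each of which has a Riemannian metric with `|Ric| ≤ lam`, volume at least `v` and
diameter at most `D`. -/
theorem result (d : ℕ) (hd : 7 ≤ d) : ∃ lam v D : ℝ, 0 < lam ∧ 0 < v ∧ 0 < D ∧
    ∃ M : ℕ → ClosedManifold d,
      (∀ n, ∃ g : Ch.Metric d (M n).carrier, Ch.RicBounded g lam ∧ ENNReal.ofReal v ≤ Ch.vol g ∧
        ∀ x y, Ch.rdist g x y ≤ ENNReal.ofReal D) ∧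
      ∀ m n, m ≠ n → ¬ Diffeomorphic (M m) (M n) :=
  finitenessFails_all d hd

end Pool.Agent.Results.MP_1ef7b6_gt.InfinitelyManyAllDimensions
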